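import Pool.Agent.Lib_helper44.G4.Defs
import Pool.Agent.Lib_helper41.HZF.Defs

/-!
# Twists by Dirichlet characters of Hecke characters of a Galois number field: definitions
-/

namespace Pool.Agent.G4I

open NumberField NumberField.InfinitePlace Complex MeasureTheory Filter Topology
open Pool.Agent.HZ
open scoped Pointwise

variable {K : Type} [Field K] [NumberField K]

/-- `ψ` is different from its conjugates `ψ^τ`, `τ ≠ 1`. -/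
def Regular (ψ : Ideal (𝓞 K) →* ℂ) : Prop :=
  ∀ τ : K ≃ₐ[ℚ] K, τ ≠ 1 → ∃ 𝔞 : Ideal (𝓞 K), ψ 𝔞 ≠ 0 ∧ ψ (τ • 𝔞) ≠ 0 ∧ ψ (τ • 𝔞) ≠ ψ 𝔞

/-- The twist `𝔞 ↦ ψ(𝔞) η(N𝔞)` of `ψ` by the Dirichlet character `η`. -/
noncomputable def twist (ψ : Ideal (𝓞 K) →* ℂ) {q : ℕ} (η : DirichletCharacter ℂ q) :
    Ideal (𝓞 K) →* ℂ where
  toFun 𝔞 := ψ 𝔞 * η ((Ideal.absNorm 𝔞 : ℕ) : ZMod q)
  map_one' := by
    rw [map_one, map_one, Nat.cast_one, map_one, one_mul]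
  map_mul' a b := by
    simp only [map_mul, Nat.cast_mul]
    ring

/-- The exponents `κ` of the twist by an even (`δ = 0`) or odd (`δ = 1`) character. -/
noncomputable def kapd (κ : InfinitePlace K → ℤ) (δ : Fin 2) (w : InfinitePlace K) : ℤ :=
  open Classical in if w.IsReal ∧ δ = 1 then 1 - κ w else κ w

/-! ### Auxiliary definitions -/

variable (K) in
/-- the nonzero ideals of norm `n` -/
noncomputable def nIdeals (n : ℕ) : Finset (Ideal (𝓞 K)) :=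
  open Classical in ((Ideal.finite_setOfPred_absNorm_le (S := 𝓞 K) n).toFinset).filter
    (fun 𝔞 => Ideal.absNorm 𝔞 = n ∧ 𝔞 ≠ ⊥)

/-- the coefficients of the Dirichlet series of a function on the ideals -/
noncomputable def isum (φ : Ideal (𝓞 K) → ℂ) (n : ℕ) : ℂ := ∑ 𝔞 ∈ nIdeals K n, φ 𝔞

theorem isum_zero (φ : Ideal (𝓞 K) → ℂ) : isum φ 0 = 0 := by
  unfold isum
  refine Finset.sum_eq_zero fun 𝔞 h => ?_
  obtain ⟨_, h1, h2⟩ := Finset.mem_filter.1 h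
  exact absurd (Ideal.absNorm_eq_zero_iff.1 h1) h2

/-- the same as an arithmetic function -/
noncomputable def isumA (φ : Ideal (𝓞 K) → ℂ) : ArithmeticFunction ℂ := ⟨isum φ, isum_zero φ⟩

/-- The von Mangoldt function of `K`. -/
noncomputable def LK (D : Ideal (𝓞 K)) : ℝ :=
  open Classical in
  if h : ∃ (𝔭 : Ideal (𝓞 K)) (k : ℕ), 𝔭.IsPrime ∧ 𝔭 ≠ ⊥ ∧ 0 < k ∧ D = 𝔭 ^ k then
    Real.log (Ideal.absNorm h.choose) else 0

/-- The function `1` on the nonzero ideals coprime to `𝔮`. -/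
noncomputable def triv (𝔮 : Ideal (𝓞 K)) : Ideal (𝓞 K) →* ℂ where
  toFun 𝔞 := open Classical in if 𝔞 ≠ ⊥ ∧ IsCoprime 𝔞 𝔮 then 1 else 0
  map_one' := by
    rw [if_pos]
    exact ⟨one_ne_zero, isCoprime_one_left⟩
  map_mul' a b := by
    classical
    have h : (a * b ≠ ⊥ ∧ IsCoprime (a * b) 𝔮) ↔
        (a ≠ ⊥ ∧ IsCoprime a 𝔮) ∧ (b ≠ ⊥ ∧ IsCoprime b 𝔮) := by
      rw [IsCoprime.mul_left_iff]
      have : a * b ≠ ⊥ ↔ a ≠ ⊥ ∧ b ≠ ⊥ := by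
        rw [Ne, Ideal.mul_eq_bot, not_or]
      tauto
    by_cases h1 : a ≠ ⊥ ∧ IsCoprime a 𝔮
    · by_cases h2 : b ≠ ⊥ ∧ IsCoprime b 𝔮
      · rw [if_pos (h.2 ⟨h1, h2⟩), if_pos h1, if_pos h2, mul_one]
      · rw [if_neg (fun h3 => h2 (h.1 h3).2), if_neg h2, mul_zero]
    · rw [if_neg (fun h3 => h1 (h.1 h3).1), if_neg h1, zero_mul]

/-- `θ_τ(𝔞) = ψ(𝔞) conj ψ(τ 𝔞)` for `τ ≠ 1`, and `θ_1 = 1` on the nonzero ideals. -/
noncomputable def thet (ψ : Ideal (𝓞 K) →* ℂ) (τ : K ≃ₐ[ℚ] K) : Ideal (𝓞 K) →* ℂ :=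
  open Classical in
  if τ = 1 then triv ⊤ else
  { toFun := fun 𝔞 => ψ 𝔞 * starRingEnd ℂ (ψ (τ • 𝔞))
    map_one' := by
      have h : τ • (1 : Ideal (𝓞 K)) = 1 := smul_one τ
      rw [h, map_one, map_one, one_mul]
    map_mul' := fun a b => by
      rw [smul_mul', map_mul, map_mul, map_mul]
      ring }

/-- The product of the Dirichlet series of the `θ_τ`. -/
noncomputable def gfun (ψ : Ideal (𝓞 K) →* ℂ) : ArithmeticFunction ℂ :=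
  ∏ τ : K ≃ₐ[ℚ] K, isumA (thet ψ τ)

/-- The von Mangoldt coefficients of `gfun`. -/
noncomputable def Lg (ψ : Ideal (𝓞 K) →* ℂ) (d : ℕ) : ℂ :=
  ∑ τ : K ≃ₐ[ℚ] K, isum (fun D => LK D * thet ψ τ D) d

/-- the sum `∑_𝔞 φ(𝔞) N𝔞^{-s}` -/
noncomputable def LI (φ : Ideal (𝓞 K) → ℂ) (s : ℂ) : ℂ :=
  ∑' 𝔞 : Ideal (𝓞 K), φ 𝔞 * (Ideal.absNorm 𝔞 : ℂ) ^ (-s)

/-- A (not necessarily primitive) Hecke character, with all its data. -/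
structure HChar (K : Type) [Field K] [NumberField K] where
  𝔮 : Ideal (𝓞 K)
  κ : InfinitePlace K → ℤ
  lam : InfinitePlace K → ℝ
  χ : MulChar (𝓞 K ⧸ 𝔮) ℂ
  ψ : Ideal (𝓞 K) →* ℂ
  ne_bot : 𝔮 ≠ ⊥
  ne_top : 𝔮 ≠ ⊤
  κ_real : ∀ w : InfinitePlace K, w.IsReal → κ w = 0 ∨ κ w = 1
  lam_sum : ∑ w, lam w = 0
  isHecke : IsHecke 𝔮 κ lam χ ψ

/-- the average of the unit characters -/
noncomputable def e0 (lam : InfinitePlace K → ℝ) : ℂ :=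
  ∫ x in Set.Icc (0 : Fin (Units.rank K) → ℝ) 1,
    cexp (((∑ w, lam w * Real.log (Yv K 0 x w) : ℝ) : ℂ) * I)

/-- the sum of the values of the finite part -/
noncomputable def HChar.chiSum (H : HChar K) : ℂ := ∑ᶠ a : 𝓞 K ⧸ H.𝔮, H.χ a

/-- `ψ` is not the trivial character -/
def HChar.NT (H : HChar K) : Prop := ∃ 𝔞 : Ideal (𝓞 K), H.ψ 𝔞 ≠ 0 ∧ H.ψ 𝔞 ≠ 1

/-- a choice of representatives of the ideal classes -/
structure Reps (𝔮 : Ideal (𝓞 K)) where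
  rep : ClassGroup (𝓞 K) → Ideal (𝓞 K)
  g : ClassGroup (𝓞 K) → 𝓞 K
  rep_ne : ∀ c, rep c ≠ ⊥
  mk_rep : ∀ c, ClassGroup.mk0 ⟨rep c, mem_nonZeroDivisors_of_ne_zero (rep_ne c)⟩ = c
  mem : ∀ c, g c ∈ rep c
  g_ne : ∀ c, g c ≠ 0
  cop : ∀ c, IsCoprime (quo (rep c) (g c)) 𝔮
  res : ∀ c, ∃ ρ : 𝓞 K → 𝓞 K ⧸ 𝔮, ∀ α ∈ rep c, ∀ a : 𝓞 K,
    ρ α = Ideal.Quotient.mk 𝔮 a ↔ α - a * g c ∈ 𝔮 * rep c

end Pool.Agent.G4I
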